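import Pool.Agent.Results.MP_e06174_ag.ImagesOfCovers

/-!
# Rationality and unirationality of the images of covers of projective space

Let `V` be a smooth hypersurface of dimension `n ≥ 1` with the equation
`y ^ N + a_{N - 1}(x) y ^ (N - 1) + ⋯ + a_0(x) = 0`, where `a_i` is a form of degree `(N - i) k` in
the coordinates `x_0, …, x_n` of projective `n`-space, for instance a cyclic covering of projective
space branched over a smooth hypersurface of degree `N k`, and suppose that `N ≤ 3` or
`n ≤ k ⌊(N - 1) / 2⌋`. Let `b = [ℂ(V) : ℂ(x)]` be the degree of `V` over projective space (`b = N` as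
`V` is irreducible; this is not used and not proved here). Let `W` be any variety with a dominant
rational map `V ⇢ W` of degree `r`; nothing is assumed about the map (it need not be a quotient by a
group) or about `W`, and `V` need not be known when `W` is given.

(1) Let `r + n ≤ (N - 1) k`. Then `W` is unirational if and only if `p_g(W) = 0`; and then `b`
divides `r`. If `r < 2 b` then `W` is rational if and only if `W` is unirational, if and only if
`W` is uniruled, if and only if `K_W` is not pseudo-effective, if and only if `κ(W) = -∞`, if and only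
if `p_g(W) = 0`, if and only if `V ⇢ W` is birationally the covering `V → ℙⁿ`.

(2) Let `2 r + n ≤ (N - 1) k`. Then `W` is unirational if and only if it is not of general type. If
`r < 2 b` then `W` is rational if and only if it is not of general type.

So there is an algorithm which decides the unirationality of all these varieties `W` (it computes
`p_g(W)`), and one which decides the rationality of those with `r < 2 b`.

The proof uses the criterion `MP_e06174_ag.ImagesOfCovers` of this team: if `p_g(W) = 0` then
`V ⇢ W` factors through `V → ℙⁿ`. The degree of the map `ℙⁿ ⇢ W` is then `r / b`.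
-/

set_option autoImplicit false
set_option linter.overlappingInstances false

open FF MvPolynomial Pool.Agent.W602.GT
open Pool.Agent.W619.PQ (IsUniruled)
open Pool.Agent.Results.MP_e06174_ag.ImagesOfCovers

namespace Pool.Agent.Results.MP_1dc56d_ag.RationalImages

/-- The varieties of dimension `n` with function field `L` are rational: `L` is isomorphic to the
field of rational functions in `n` variables. -/
def IsRational (L : Type) [Field L] [Algebra ℂ L] (n : ℕ) : Prop :=
  Nonempty (L ≃ₐ[ℂ] FractionRing (MvPolynomial (Fin n) ℂ))

section

variable {K : Type} [Field K] [Algebra ℂ K] {n : ℕ}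

/-- The degree of `V` over projective space, where `x` is the generic point of projective space. -/
noncomputable def coverDegree (x : Fin (n + 1) → K) : ℕ :=
  Module.finrank (IntermediateField.adjoin ℂ (Set.range x)) K

/-- The map `V ⇢ W` is birationally the projection `V → ℙⁿ`: the image of the function field `L` of
`W` in `K` is the field of the rational functions of `x`. -/
def IsProjection (L : Type) [Field L] [Algebra ℂ L] [Algebra L K] (x : Fin (n + 1) → K) : Prop :=
  ∀ f : K, f ∈ IntermediateField.adjoin ℂ (Set.range x) ↔ ∃ g : L, algebraMap L K g = f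

variable {L : Type} [Field L] [Algebra ℂ L] [Algebra L K] [IsScalarTower ℂ L K]

omit [IsScalarTower ℂ L K] in
/-- the degrees, if the map factors through the covering -/
theorem degrees [FiniteDimensional L K] {x : Fin (n + 1) → K} (h : FactorsThrough L n x) :
    coverDegree x ∣ Module.finrank L K ∧
      (Module.finrank L K < 2 * coverDegree x → IsProjection L x) := by
  unfold coverDegree
  set E := IntermediateField.adjoin ℂ (Set.range x) with hE
  let φ : L →+* E :=
    { toFun := fun f => ⟨algebraMap L K f, h f⟩
      map_one' := Subtype.ext (map_one _)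
      map_mul' := fun f g => Subtype.ext (map_mul _ _ _)
      map_zero' := Subtype.ext (map_zero _)
      map_add' := fun f g => Subtype.ext (map_add _ _ _) }
  let _ : Algebra L E := φ.toAlgebra
  have _ : IsScalarTower L E K := IsScalarTower.of_algebraMap_eq fun f => rfl
  have hmul : Module.finrank L E * Module.finrank E K = Module.finrank L K :=
    Module.finrank_mul_finrank L E K
  have hpos : 0 < Module.finrank L K := Module.finrank_pos
  refine ⟨⟨Module.finrank L E, by rw [← hmul, mul_comm]⟩, fun hlt => ?_⟩
  have h1 : Module.finrank L E = 1 := by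
    have h2 : Module.finrank L E ≠ 0 := by
      intro h0
      rw [h0, zero_mul] at hmul
      omega
    have h3 : Module.finrank L E < 2 := by
      rw [← hmul] at hlt
      exact Nat.lt_of_mul_lt_mul_right hlt
    omega
  have hsurj : Function.Surjective (algebraMap L E) := by
    intro z
    have h2 : z ∈ (⊥ : Subalgebra L E) := by
      rw [Subalgebra.bot_eq_top_of_finrank_eq_one h1]
      trivial
    obtain ⟨g, hg⟩ := Algebra.mem_bot.1 h2
    exact ⟨g, hg⟩
  intro f
  constructor
  · intro hf
    obtain ⟨g, hg⟩ := hsurj ⟨f, hf⟩
    exact ⟨g, congrArg Subtype.val hg⟩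
  · rintro ⟨g, rfl⟩
    exact h g

theorem rational_of_projection {x : Fin (n + 1) → K} (hx0 : x 0 = 1)
    (hind : AlgebraicIndependent ℂ (fun i : Fin n => x i.succ)) (h : IsProjection L x) :
    IsRational L n := by
  have hE := adjoin_tail hx0
  let e := hind.aevalEquivField
  let φ : L →ₐ[ℂ] IntermediateField.adjoin ℂ (Set.range fun i : Fin n => x i.succ) :=
    { toFun := fun f => ⟨algebraMap L K f, by
        rw [← hE]
        exact (h _).2 ⟨f, rfl⟩⟩
      map_one' := Subtype.ext (map_one _)
      map_mul' := fun f g => Subtype.ext (map_mul _ _ _)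
      map_zero' := Subtype.ext (map_zero _)
      map_add' := fun f g => Subtype.ext (map_add _ _ _)
      commutes' := fun c => Subtype.ext (IsScalarTower.algebraMap_apply ℂ L K c).symm }
  have hφ : Function.Bijective φ := by
    refine ⟨φ.toRingHom.injective, fun z => ?_⟩
    have hz : (z : K) ∈ IntermediateField.adjoin ℂ (Set.range x) := by
      rw [hE]
      exact z.2
    obtain ⟨g, hg⟩ := (h _).1 hz
    exact ⟨g, Subtype.ext hg⟩
  exact ⟨(AlgEquiv.ofBijective φ hφ).trans e.symm⟩

end

/-- **Rationality of the images of covers of projective space.** Let `V` be a smooth hypersurface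
`y ^ N + a_{N - 1}(x) y ^ (N - 1) + ⋯ + a_0(x) = 0` of degree `N k` and dimension `n ≥ 1` in the weighted
projective space `P(1, …, 1, k)`, where `N ≤ 3` or `n ≤ k ⌊(N - 1) / 2⌋`, let `b` be the degree of
`V` over projective space, and let `W` be a variety with function field `L` and `V ⇢ W` a dominant
rational map of degree `r`. If `r + n ≤ (N - 1) k` then `W` is unirational if and only if
`p_g(W) = 0`, and this implies that `b` divides `r`; if moreover `r < 2 b` then `W` is rational if
and only if it is unirational, if and only if it is uniruled, if and only if `K_W` is not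
pseudo-effective, if and only if `κ(W) = -∞`, if and only if `p_g(W) = 0`, if and only if `V ⇢ W` is
birationally the covering `V → ℙⁿ`. If `2 r + n ≤ (N - 1) k` then `W` is unirational if and only if
it is not of general type; if moreover `r < 2 b` then `W` is rational if and only if it is not of
general type. -/
theorem result {n N k : ℕ} (hn : 1 ≤ n) (hk : N ≤ 3 ∨ n ≤ k * ((N - 1) / 2))
    {a : Fin N → MvPolynomial (Fin (n + 1)) ℂ} (hV : IsSmoothCover k a)
    {K : Type} [Field K] [Algebra ℂ K] {x : Fin (n + 1) → K} {y : K}
    (hxy : IsGenericPoint a x y)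
    (L : Type) [Field L] [Algebra ℂ L] [Algebra L K] [IsScalarTower ℂ L K]
    [FiniteDimensional L K] :
    (Module.finrank L K + n ≤ (N - 1) * k →
      (IsUnirational L n ↔ GenusZero L n) ∧
      (GenusZero L n → coverDegree x ∣ Module.finrank L K) ∧
      (Module.finrank L K < 2 * coverDegree x →
        [IsRational L n, IsUnirational L n, IsUniruled ℂ L n, ¬ Psef ℂ L n (fun _ => False),
          ¬ KodGe ℂ L n (fun _ => False) 0, GenusZero L n, IsProjection L x].TFAE)) ∧
    (2 * Module.finrank L K + n ≤ (N - 1) * k →
      (IsUnirational L n ↔ ¬ GeneralType ℂ L n) ∧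
      (Module.finrank L K < 2 * coverDegree x → (IsRational L n ↔ ¬ GeneralType ℂ L n))) := by
  obtain ⟨H1, H2⟩ := Pool.Agent.Results.MP_e06174_ag.ImagesOfCovers.result hn hk hV hxy L
  -- the coordinates of projective space are independent
  have hN0 : N ≠ 0 := by
    intro hN0
    subst hN0
    have h1 := hxy.zero
    simp at h1
  have hxE : ∀ j, x j ∈ IntermediateField.adjoin ℂ (Set.range x) := fun j =>
    IntermediateField.subset_adjoin ℂ _ ⟨j, rfl⟩
  obtain ⟨hfin, -⟩ := Pool.Agent.R882.WR.fin_x hxE hN0 hxy.zero hxy.gen
  have hind : AlgebraicIndependent ℂ (fun i : Fin n => x i.succ) := by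
    have halg : ∀ τ : K, IsAlgebraic (IntermediateField.adjoin ℂ (Set.range x)) τ := fun τ =>
      (Algebra.IsIntegral.isIntegral τ).isAlgebraic
    rw [adjoin_tail hxy.one] at halg
    have h1 := Pool.Agent.W619.PQ.alg_adjoin halg
    exact (Algebra.IsAlgebraic.isTranscendenceBasis_of_lift_le_trdeg_of_finite ℂ
      (fun i : Fin n => x i.succ) (by rw [hxy.dim]; simp)).1
  have hru : IsRational L n → IsUnirational L n := by
    rintro ⟨e⟩
    exact ⟨e.toAlgHom⟩
  have hfr : FactorsThrough L n x → Module.finrank L K < 2 * coverDegree x → IsRational L n :=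
    fun h hlt => rational_of_projection hxy.one hind ((degrees h).2 hlt)
  refine ⟨fun hr => ?_, fun hr => ?_⟩
  · have T := H1 hr
    refine ⟨T.out 4 0, fun hg => ?_, fun hlt => ?_⟩
    · exact (degrees ((T.out 0 5).1 hg)).1
    · tfae_have 1 → 2 := hru
      tfae_have 2 → 3 := (T.out 4 3).1
      tfae_have 3 → 4 := (T.out 3 2).1
      tfae_have 4 → 5 := (T.out 2 1).1
      tfae_have 5 → 6 := (T.out 1 0).1
      tfae_have 6 → 7 := fun h => (degrees ((T.out 0 5).1 h)).2 hlt
      tfae_have 7 → 1 := rational_of_projection hxy.one hind
      tfae_finish
  · have T := H1 (by omega)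
    have h2 := H2 hr
    refine ⟨(T.out 4 5).trans h2.symm, fun hlt => ?_⟩
    constructor
    · intro h
      exact h2.2 ((T.out 4 5).1 (hru h))
    · intro h
      exact hfr (h2.1 h) hlt

end Pool.Agent.Results.MP_1dc56d_ag.RationalImages
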