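import Pool.Agent.Results.MP_e06174_ag.CompleteIntersectionsLines
import Pool.Agent.Results.MP_e06174_ag.ImagesOfCovers

/-!
# Rationality and unirationality of the images of hypersurfaces in products of projective lines

Let `V` be a smooth hypersurface of multidegree `(d_0, …, d_n)`, `d_i = m_i + 2 ≥ 2`, in a product of
`n + 1 ≥ 2` projective lines, so that the canonical bundle of `V` is `O(m_0, …, m_n)`, let `μ ≤ m_i`
for all `i`, and let `W` be any variety with a dominant rational map `V ⇢ W` of degree
`r ≤ 2 μ + 1 = 2 (μ + 2) - 3`; nothing is assumed about the map (it need not be a quotient by a group)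
or about `W`. The theorem: `W` is rational if and only if `W` is unirational, if and only if `W` is
uniruled, if and only if `K_W` is not pseudo-effective, if and only if `κ(W) = -∞`, if and only if
`p_g(W) = 0`, if and only if `V ⇢ W` is birationally one of the `n + 1` projections of `V` onto a
product of `n` projective lines, whose degree is `r`. In particular `W` is not unirational if `r` is
not one of the numbers `d_i`.

So there is an algorithm which decides the rationality and the unirationality of all these
varieties `W`: it computes `p_g(W)`.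

The proof uses the criterion `MP_e06174_ag.CompleteIntersectionsLines` of this team: if
`p_g(W) = 0` then `V ⇢ W` is a projection.
-/

set_option autoImplicit false
set_option linter.overlappingInstances false

open FF MvPolynomial Pool.Agent.W602.GT
open Pool.Agent.W619.PQ (IsUniruled)
open Pool.Agent.Results.MP_e06174_ag.CompleteIntersectionsLines

namespace Pool.Agent.Results.MP_1dc56d_ag.RationalImagesLines

section

variable (L : Type) [Field L] [Algebra ℂ L] (n : ℕ)

/-- The varieties of dimension `n` with function field `L` are rational: `L` is isomorphic to the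
field of rational functions in `n` variables. -/
def IsRational : Prop :=
  Nonempty (L ≃ₐ[ℂ] FractionRing (MvPolynomial (Fin n) ℂ))

/-- The varieties of dimension `n` with function field `L` are unirational: `L` embeds into the
field of rational functions in `n` variables. -/
def IsUnirational : Prop :=
  Nonempty (L →ₐ[ℂ] FractionRing (MvPolynomial (Fin n) ℂ))

end

theorem rational_of_projection {L K : Type} [Field L] [Field K] [Algebra ℂ L] [Algebra ℂ K]
    [Algebra L K] [IsScalarTower ℂ L K] [FiniteDimensional L K] {n : ℕ} {x : Fin (n + 1) → K}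
    (hK : Algebra.trdeg ℂ K = n) {i : Fin (n + 1)} (h : IsProjection L x i) :
    IsRational L n := by
  classical
  have hL : Algebra.trdeg ℂ L = n := Pool.Agent.Y184.NT.trdeg_below (K := K) hK
  have hy : ∀ j : Fin n, ∃ y : L, algebraMap L K y = x (i.succAbove j) := fun j =>
    (h _).2 (IntermediateField.subset_adjoin ℂ _ ⟨_, Fin.succAbove_ne i j, rfl⟩)
  choose y hy using hy
  have hgen : IntermediateField.adjoin ℂ (Set.range y) = ⊤ := by
    apply IntermediateField.map_injective (IsScalarTower.toAlgHom ℂ L K)
    rw [IntermediateField.adjoin_map, ← AlgHom.fieldRange_eq_map]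
    have h2 : (IsScalarTower.toAlgHom ℂ L K) '' Set.range y = x '' {i}ᶜ := by
      ext z
      constructor
      · rintro ⟨_, ⟨j, rfl⟩, rfl⟩
        exact ⟨_, Fin.succAbove_ne i j, (hy j).symm⟩
      · rintro ⟨j, hj, rfl⟩
        obtain ⟨l, rfl⟩ := Fin.exists_succAbove_eq hj
        exact ⟨y l, ⟨_, rfl⟩, hy l⟩
    rw [h2]
    ext z
    rw [← h z]
    rfl
  have halg : Algebra.IsAlgebraic (IntermediateField.adjoin ℂ (Set.range y)) L := by
    refine ⟨fun z => ?_⟩
    have hz : z ∈ IntermediateField.adjoin ℂ (Set.range y) := by
      rw [hgen]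
      trivial
    exact isAlgebraic_algebraMap (⟨z, hz⟩ : IntermediateField.adjoin ℂ (Set.range y))
  have hind : AlgebraicIndependent ℂ y := by
    have h1 := Pool.Agent.W619.PQ.alg_adjoin halg.isAlgebraic
    exact (Algebra.IsAlgebraic.isTranscendenceBasis_of_lift_le_trdeg_of_finite ℂ y
      (by rw [hL]; simp)).1
  let e1 := hind.aevalEquivField
  let e2 : (IntermediateField.adjoin ℂ (Set.range y)) ≃ₐ[ℂ] L :=
    (IntermediateField.equivOfEq hgen).trans IntermediateField.topEquiv
  exact ⟨(e1.trans e2).symm⟩

/-- **Rationality of the images of hypersurfaces in products of projective lines.** Let `V` be a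
smooth hypersurface `F = 0` of multidegree `(m_0 + 2, …, m_n + 2)` in a product of `n + 1 ≥ 2`
projective lines, `μ ≤ m_i` for all `i`, and let `V ⇢ W` be a dominant rational map of degree
`r ≤ 2 μ + 1` to a variety `W` with function field `L`. Then `W` is rational if and only if it is
unirational, if and only if it is uniruled, if and only if `K_W` is not pseudo-effective, if and only
if `κ(W) = -∞`, if and only if `p_g(W) = 0`, if and only if `V ⇢ W` is birationally the projection of
`V` which forgets the coordinate `x_i`, and `r = m_i + 2`, for some `i`. -/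
theorem result {n μ : ℕ} (hn : 1 ≤ n) {m : Fin (n + 1) → ℕ} (hμ : ∀ i, μ ≤ m i)
    {F : MvPolynomial (Fin (n + 1)) ℂ} (hF : ∀ i, F.degreeOf i ≤ m i + 2)
    (hs : IsSmooth (fun (_ : Unit) i => m i + 2) (fun _ => F))
    {K : Type} [Field K] [Algebra ℂ K] {x : Fin (n + 1) → K}
    (hx : IsGenericPoint n (fun _ : Unit => F) x)
    (L : Type) [Field L] [Algebra ℂ L] [Algebra L K] [IsScalarTower ℂ L K]
    [FiniteDimensional L K] (hr : Module.finrank L K ≤ 2 * μ + 1) :
    [IsRational L n, IsUnirational L n, IsUniruled ℂ L n, ¬ Psef ℂ L n (fun _ => False),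
      ¬ KodGe ℂ L n (fun _ => False) 0, GenusZero L n,
      ∃ i, IsProjection L x i ∧ Module.finrank L K = m i + 2].TFAE := by
  obtain ⟨T, hP⟩ := (Pool.Agent.Results.MP_e06174_ag.CompleteIntersectionsLines.result hn
    (κ := Unit) (ι := Fin (n + 1)) (by simp) (fun i => by simp) hμ (fun _ i => hF i) hs hx L).2 hr
  tfae_have 1 → 2 := by
    rintro ⟨e⟩
    exact ⟨e.toAlgHom⟩
  tfae_have 2 → 3 := fun h =>
    Pool.Agent.Results.MP_e06174_ag.ImagesOfCovers.uniruled_of_unirational hn h
  tfae_have 3 → 4 := (T.out 3 2).1
  tfae_have 4 → 5 := (T.out 2 1).1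
  tfae_have 5 → 6 := (T.out 1 0).1
  tfae_have 6 → 7 := by
    intro h
    obtain ⟨i, k, h1, -, -, h2⟩ := hP h
    exact ⟨i, h1, h2⟩
  tfae_have 7 → 1 := by
    rintro ⟨i, h, -⟩
    exact rational_of_projection hx.dim h
  tfae_finish

end Pool.Agent.Results.MP_1dc56d_ag.RationalImagesLines
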