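import Pool.Agent.R882.HQ

/-!
# Rationality and unirationality of the images of towers

Let `V 0 ⇢ V 1 ⇢ ... ⇢ V k` be a tower (`MixedTower`, `Pool/Agent/R882/HQ.lean`) of varieties of
dimension `n ≥ 1` over a rational variety `V k`, with generically finite maps of degrees `b i`, where
each `V i`, `i < k`, is of one of the following two kinds. Here `s` is a given number, and
`s i = s / (b 0 ⋯ b (i - 1))`.

* (torus) `V i` is a component of the set of common zeros in a torus of a system of Laurent
  polynomials which is nondegenerate in the sense of Khovanskii, with arbitrary Newton polytopes, and
  `V (i + 1)` is the image of `V i` under monomials `t l = x ^ (w l)`, `ℂ(V i) = ℂ(V (i + 1))(x ^ v)`; for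
  each divisor `c < b i` of `b i` there is an `M` with `s i ≤ c (M + 1)` and a `u` such that the
  `u + j v` and `u + j v + M w l`, `j < c`, are in the Fine interior of the Newton polytopes.
* (lines) `V i` is a component of a smooth complete intersection of hypersurfaces of multidegrees
  `(d_{l,a})` in a product of projective lines, `Σ_l d_{l,a} = m_a + 2`, and `V (i + 1)` is the image
  of `V i` under the projection which forgets one coordinate `x_{a0}`; `s i ≤ m_a + 1` for `a ≠ a0`.

Let `V 0 ⇢ X` be any dominant rational map of degree `r = s`; nothing is assumed about the map (it need
not be a quotient by a group and has no relation to the tower) or about `X`. Let `B = b 0 ⋯ b (k - 1)`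
be the degree of `V 0` over `V k`.

The theorem: `p_g(X) = 0` if and only if `X` is unirational (if and only if it is uniruled, or
`κ(X) = -∞`, or `K_X` is not pseudo-effective). If `r < 2 B` then `p_g(X) = 0` if and only if `X` is
rational.

The geometric genus of a variety which is given by equations can be computed, and the conditions on
the tower (smoothness or nondegeneracy, Fine interior, degrees) can be checked. So there is an
algorithm which decides the unirationality, and for `r < 2 B` the rationality, of all varieties `X`
of any dimension which are given together with such a tower and a map `V 0 ⇢ X` (these remarks on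
algorithms are not formalised). It does not use that `X` is given in a special way: both properties are
decided by `p_g(X)`, although they are not for general varieties of dimension `n ≥ 2`.

Proof: if `p_g(X) = 0` and `V i ⇢ X` is a rational map then it factors through `V i ⇢ V (i + 1)`, because
the traces to `X` of the forms `A(t) x ^ u y ^ j Res`, where `Res` is the residue form on `V i`, `y = x ^ v`
or `y = x_{a0}` and `A` is a polynomial in the other functions, are zero. So `V 0 ⇢ X` factors through
`V k`, with `V k ⇢ X` of degree `r / B`.

`K` and `L` are the function fields of `V 0` and `X`.
-/

set_option autoImplicit false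
set_option linter.overlappingInstances false

open FF Module Pool.Agent.W602.GT
open Pool.Agent.W619.PQ (IsUniruled)
open Pool.Agent.W619.TW (IsUnirational)
open Pool.Agent.R882.HT (GenusZero)
open Pool.Agent.R882.HQ (MixedTower IsRational)

namespace Pool.Agent.Results.MP_1dc56d_ag.RationalTowers

/-- **Rationality and unirationality of the images of towers.** Let `K` be the function field of the
first variety `V` of a tower of varieties of dimension `n ≥ 1`, of total degree `B`, over a rational
variety, for the number `r`, and let `V ⇢ X` be a dominant rational map of degree `r`, `L` the
function field of `X`. Then `p_g(X) = 0` iff `κ(X) = -∞` iff `K_X` is not pseudo-effective iff `X` is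
uniruled iff `X` is unirational. If `r < 2 B` then `X` is rational iff `p_g(X) = 0`. -/
theorem result {n : ℕ} (hn : 1 ≤ n) {K : Type} [Field K] [Algebra ℂ K]
    [Algebra.EssFiniteType ℂ K] (hK : Algebra.trdeg ℂ K = (n : ℕ))
    (L : Type) [Field L] [Algebra ℂ L] [Algebra L K] [IsScalarTower ℂ L K]
    [FiniteDimensional L K] {B : ℕ}
    (h : MixedTower n (fun E _ _ => IsRational E n) K (Module.finrank L K) B) :
    [GenusZero L n, ¬ KodGe ℂ L n (fun _ => False) 0, ¬ Psef ℂ L n (fun _ => False),
      IsUniruled ℂ L n, IsUnirational ℂ L n].TFAE ∧
    (Module.finrank L K < 2 * B → (IsRational L n ↔ GenusZero L n)) :=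
  Pool.Agent.R882.HQ.rational_towers hn hK L h

end Pool.Agent.Results.MP_1dc56d_ag.RationalTowers
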