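import Pool.Agent.R882.COver
import Pool.Agent.Results.MP_e06174_ag.ImagesOfCovers

/-!
# Reduction of the rationality of images to the base of a generically finite map

Let `V ⇢ Y` be a generically finite rational map of degree `b` of varieties of dimension `n ≥ 1`, where
`Y` is uniruled (for instance rational), and let `V ⇢ W` be any dominant rational map of degree `r` to
any variety `W`; nothing is assumed about this map. It is assumed that the canonical class of `V` is
sufficiently positive relative to `Y` (`Positive`, `Pool/Agent/R882/COver.lean`): for every field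
`F` with `ℂ(Y) < F ≤ ℂ(V)` there is a number `m` with `r ≤ [ℂ(V) : F] (m + 1)` such that some section of
`K_V - m H` has nonzero trace to `F`, where `H` is the hyperplane class of `Y`. (If there is no field
strictly between `ℂ(Y)` and `ℂ(V)`, this holds if `K_V - (r - 1) H` is effective.) The theorem:

(1) if `p_g(W) = 0` then `b` divides `r`; so `W` is not unirational if `b` does not divide `r`;

(2) if `Y` is unirational then `W` is unirational if and only if `p_g(W) = 0`;

(3) if `r < 2 b` then `p_g(W) = 0` if and only if `V ⇢ W` is birationally the map `V ⇢ Y`; so `W` is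
rational if and only if `p_g(W) = 0` and `Y` is rational, and `W` is unirational if and only if
`p_g(W) = 0` and `Y` is unirational.

If the positivity holds for `2 r` instead of `r`, the same is true with `p_g(W) = 0` replaced by the
condition that `W` is not of general type.

So the rationality problem for all these `W` is reduced to the one variety `Y`: an algorithm which
decides whether `Y` is rational gives one for all `W` (it computes `p_g(W)`).

The proof uses the criterion `MP_e06174_ag.ImagesOverUniruled` of this team: if `p_g(W) = 0` then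
`V ⇢ W` factors through `V ⇢ Y`.
-/

set_option autoImplicit false
set_option linter.overlappingInstances false

open FF MvPolynomial Pool.Agent.W602.GT
open Pool.Agent.W619.PQ (IsUniruled)
open Pool.Agent.R882.Over

namespace Pool.Agent.Results.MP_1dc56d_ag.ReductionToBase

section

variable (L : Type) [Field L] [Algebra ℂ L] (n : ℕ)

/-- The varieties of dimension `n` with function field `L` are rational: `L` is isomorphic to the
field of rational functions in `n` variables. -/
def IsRational : Prop :=
  Nonempty (L ≃ₐ[ℂ] FractionRing (MvPolynomial (Fin n) ℂ))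

/-- The varieties of dimension `n` with function field `L` are unirational: `L` embeds into the
field of rational functions in `n` variables. -/
def IsUnirational : Prop :=
  Nonempty (L →ₐ[ℂ] FractionRing (MvPolynomial (Fin n) ℂ))

end

section

variable {K : Type} [Field K] [Algebra ℂ K] {N : ℕ}

/-- The function field of the base `Y` with the generic point `x`. -/
noncomputable abbrev baseField (x : Fin N → K) : IntermediateField ℂ K :=
  IntermediateField.adjoin ℂ (Set.range x)

/-- The degree of `V` over the base `Y`. -/
noncomputable def baseDegree (x : Fin N → K) : ℕ :=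
  Module.finrank (baseField x) K

/-- The map `V ⇢ W` is birationally the map `V ⇢ Y`: the image of the function field `L` of `W` in
`K` is the function field of `Y`. -/
def IsBaseMap (L : Type) [Field L] [Algebra ℂ L] [Algebra L K] (x : Fin N → K) : Prop :=
  ∀ f : K, f ∈ baseField x ↔ ∃ g : L, algebraMap L K g = f

variable {L : Type} [Field L] [Algebra ℂ L] [Algebra L K]

/-- the degrees, if the map factors through the covering -/
theorem degrees [FiniteDimensional L K] {x : Fin N → K} (h : FactorsThrough L x) :
    baseDegree x ∣ Module.finrank L K ∧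
      (Module.finrank L K < 2 * baseDegree x → IsBaseMap L x) := by
  unfold baseDegree
  let φ : L →+* baseField x :=
    { toFun := fun f => ⟨algebraMap L K f, h f⟩
      map_one' := Subtype.ext (map_one _)
      map_mul' := fun f g => Subtype.ext (map_mul _ _ _)
      map_zero' := Subtype.ext (map_zero _)
      map_add' := fun f g => Subtype.ext (map_add _ _ _) }
  let _ : Algebra L (baseField x) := φ.toAlgebra
  have _ : IsScalarTower L (baseField x) K := IsScalarTower.of_algebraMap_eq fun f => rfl
  have hmul : Module.finrank L (baseField x) * Module.finrank (baseField x) K =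
      Module.finrank L K := Module.finrank_mul_finrank L (baseField x) K
  have hpos : 0 < Module.finrank L K := Module.finrank_pos
  refine ⟨⟨Module.finrank L (baseField x), by rw [← hmul, mul_comm]⟩, fun hlt => ?_⟩
  have h1 : Module.finrank L (baseField x) = 1 := by
    have h2 : Module.finrank L (baseField x) ≠ 0 := by
      intro h0
      rw [h0, zero_mul] at hmul
      omega
    have h3 : Module.finrank L (baseField x) < 2 := by
      rw [← hmul] at hlt
      exact Nat.lt_of_mul_lt_mul_right hlt
    omega
  have hsurj : Function.Surjective (algebraMap L (baseField x)) := by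
    intro z
    have h2 : z ∈ (⊥ : Subalgebra L (baseField x)) := by
      rw [Subalgebra.bot_eq_top_of_finrank_eq_one h1]
      trivial
    obtain ⟨g, hg⟩ := Algebra.mem_bot.1 h2
    exact ⟨g, hg⟩
  intro f
  constructor
  · intro hf
    obtain ⟨g, hg⟩ := hsurj ⟨f, hf⟩
    exact ⟨g, congrArg Subtype.val hg⟩
  · rintro ⟨g, rfl⟩
    exact h g

variable [IsScalarTower ℂ L K]

/-- the inclusion of the function fields, if the map factors -/
noncomputable def incl {x : Fin N → K} (h : FactorsThrough L x) : L →ₐ[ℂ] baseField x :=
  { toFun := fun f => ⟨algebraMap L K f, h f⟩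
    map_one' := Subtype.ext (map_one _)
    map_mul' := fun f g => Subtype.ext (map_mul _ _ _)
    map_zero' := Subtype.ext (map_zero _)
    map_add' := fun f g => Subtype.ext (map_add _ _ _)
    commutes' := fun c => Subtype.ext (IsScalarTower.algebraMap_apply ℂ L K c).symm }

theorem equiv_of_baseMap {x : Fin N → K} (h : IsBaseMap L x) :
    Nonempty (L ≃ₐ[ℂ] baseField x) := by
  have hf : FactorsThrough L x := fun f => (h _).2 ⟨f, rfl⟩
  have hφ : Function.Bijective (incl hf) := by
    refine ⟨(incl hf).toRingHom.injective, fun z => ?_⟩
    obtain ⟨g, hg⟩ := (h _).1 z.2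
    exact ⟨g, Subtype.ext hg⟩
  exact ⟨AlgEquiv.ofBijective _ hφ⟩

end

/-- the consequences of the criterion, for a condition `C` on `W` -/
theorem aux {n N : ℕ} (hn : 1 ≤ n) {K : Type} [Field K] [Algebra ℂ K] {x : Fin N → K}
    {L : Type} [Field L] [Algebra ℂ L] [Algebra L K] [IsScalarTower ℂ L K]
    [FiniteDimensional L K] {C : Prop} (hC : C ↔ FactorsThrough L x)
    (hU : IsUniruled ℂ L n → C) :
    (C → baseDegree x ∣ Module.finrank L K) ∧
    (IsUnirational (baseField x) n → (IsUnirational L n ↔ C)) ∧
    (Module.finrank L K < 2 * baseDegree x →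
      (C ↔ IsBaseMap L x) ∧
      (IsRational L n ↔ C ∧ IsRational (baseField x) n) ∧
      (IsUnirational L n ↔ C ∧ IsUnirational (baseField x) n)) := by
  have hun : IsUnirational L n → C := fun h =>
    hU (Pool.Agent.Results.MP_e06174_ag.ImagesOfCovers.uniruled_of_unirational hn h)
  have hru : IsRational L n → IsUnirational L n := by
    rintro ⟨e⟩
    exact ⟨e.toAlgHom⟩
  refine ⟨fun h => (degrees (hC.1 h)).1, fun hY => ⟨hun, fun h => ?_⟩, fun hlt => ?_⟩
  · obtain ⟨ψ⟩ := hY
    exact ⟨ψ.comp (incl (hC.1 h))⟩
  · have hb : C ↔ IsBaseMap L x :=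
      ⟨fun h => (degrees (hC.1 h)).2 hlt, fun h => hC.2 fun f => (h _).2 ⟨f, rfl⟩⟩
    refine ⟨hb, ⟨fun h => ?_, ?_⟩, ⟨fun h => ?_, ?_⟩⟩
    · have hc := hun (hru h)
      obtain ⟨e⟩ := equiv_of_baseMap (hb.1 hc)
      obtain ⟨e'⟩ := h
      exact ⟨hc, ⟨e.symm.trans e'⟩⟩
    · rintro ⟨hc, ⟨e'⟩⟩
      obtain ⟨e⟩ := equiv_of_baseMap (hb.1 hc)
      exact ⟨e.trans e'⟩
    · have hc := hun h
      obtain ⟨e⟩ := equiv_of_baseMap (hb.1 hc)
      obtain ⟨e'⟩ := h
      exact ⟨hc, ⟨e'.comp e.symm.toAlgHom⟩⟩
    · rintro ⟨hc, ⟨e'⟩⟩
      obtain ⟨e⟩ := equiv_of_baseMap (hb.1 hc)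
      exact ⟨e'.comp e.toAlgHom⟩

/-- **Reduction of rationality to the base.** Let `V ⇢ Y` be a generically finite rational map, of
degree `b`, of varieties of dimension `n ≥ 1`, `Y` uniruled with generic point `x`, and let `V ⇢ W`
be a dominant rational map of degree `r` to a variety with function field `L`. Suppose that
`Positive` holds for `r`. If `p_g(W) = 0` then `b` divides `r`. If `Y` is unirational then `W` is
unirational if and only if `p_g(W) = 0`. If `r < 2 b` then `p_g(W) = 0` if and only if `V ⇢ W` is
birationally `V ⇢ Y`, and `W` is rational (unirational) if and only if `p_g(W) = 0` and `Y` is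
rational (unirational). If `Positive` holds for `2 r` then the same is true with `p_g(W) = 0` replaced
by the condition that `W` is not of general type. -/
theorem result {n N : ℕ} (hn : 1 ≤ n) {K : Type} [Field K] [Algebra ℂ K] {x : Fin N → K}
    (hx : IsBase n x) (hY : IsUniruled ℂ (baseField x) n)
    (L : Type) [Field L] [Algebra ℂ L] [Algebra L K] [IsScalarTower ℂ L K]
    [FiniteDimensional L K] :
    (Positive n x (Module.finrank L K) →
      (GenusZero L n → baseDegree x ∣ Module.finrank L K) ∧
      (IsUnirational (baseField x) n → (IsUnirational L n ↔ GenusZero L n)) ∧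
      (Module.finrank L K < 2 * baseDegree x →
        (GenusZero L n ↔ IsBaseMap L x) ∧
        (IsRational L n ↔ GenusZero L n ∧ IsRational (baseField x) n) ∧
        (IsUnirational L n ↔ GenusZero L n ∧ IsUnirational (baseField x) n))) ∧
    (Positive n x (2 * Module.finrank L K) →
      (¬ GeneralType ℂ L n → baseDegree x ∣ Module.finrank L K) ∧
      (IsUnirational (baseField x) n → (IsUnirational L n ↔ ¬ GeneralType ℂ L n)) ∧
      (Module.finrank L K < 2 * baseDegree x →
        (¬ GeneralType ℂ L n ↔ IsBaseMap L x) ∧
        (IsRational L n ↔ ¬ GeneralType ℂ L n ∧ IsRational (baseField x) n) ∧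
        (IsUnirational L n ↔ ¬ GeneralType ℂ L n ∧ IsUnirational (baseField x) n))) := by
  obtain ⟨H1, H2⟩ := over_uniruled hn hx hY L
  have hessK : Algebra.EssFiniteType ℂ K := hx.ess
  have hessL : Algebra.EssFiniteType ℂ L := Pool.Agent.TH466.QG.ess_below (K := K)
  have hL : Algebra.trdeg ℂ L = n := Pool.Agent.Y184.NT.trdeg_below (K := K) hx.dim
  refine ⟨fun hp => ?_, fun hp => ?_⟩
  · have T := H1 hp
    exact aux hn (T.out 0 4) (T.out 3 0).1
  · refine aux hn (H2 hp) fun hU hgt => ?_
    exact (Pool.Agent.W619.Y.uniruled_neg n hL hU).1 ((Pool.Agent.TH466.QG.psef_iff n).1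
      (psef_of_kodGe (Pool.Agent.R882.WR.kod_of_gt hgt)))

end Pool.Agent.Results.MP_1dc56d_ag.ReductionToBase
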